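import Pool.Agent.J4H7.AF.Stm

set_option autoImplicit false

namespace Pool.Agent.J4H33.AF

open Finset MeasureTheory Filter Topology
open Pool.Agent.J4H7.AF
open Pool.Agent.J4H7.WS (fr)

/-- the tuples with sum at most `T` -/
def LE' (f : ℝ → ℝ) (s T : ℕ) : Set (Fin s → ℕ) := {x | (∀ i, 1 ≤ x i) ∧ ∑ i, fr f (x i) ≤ T}

lemma fin_LE {k s : ℕ} (hk : 2 ≤ k) {f : ℝ → ℝ} (hlo : ∀ n : ℕ, n ^ k ≤ fr f n) (T : ℕ) :
    (LE' f s T).Finite := by
  refine Set.Finite.subset (Finset.finite_toSet (Fintype.piFinset fun _ : Fin s => Finset.Icc 0 T)) ?_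
  rintro x ⟨_, hx⟩
  rw [Finset.mem_coe, Fintype.mem_piFinset]
  intro i
  refine Finset.mem_Icc.2 ⟨Nat.zero_le _, ?_⟩
  calc x i ≤ x i ^ k := Nat.le_self_pow (by omega) _
    _ ≤ fr f (x i) := hlo _
    _ ≤ ∑ i, fr f (x i) := Finset.single_le_sum (f := fun i => fr f (x i))
        (fun _ _ => Nat.zero_le _) (Finset.mem_univ i)
    _ ≤ T := hx

lemma succ_LE {k s : ℕ} (hk : 2 ≤ k) {f : ℝ → ℝ} (hlo : ∀ n : ℕ, n ^ k ≤ fr f n) (T : ℕ) :
    (LE' f s (T + 1)).ncard = (LE' f s T).ncard + rep f s (T + 1) := by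
  have h1 : LE' f s (T + 1) = LE' f s T ∪ {x : Fin s → ℕ | (∀ i, 1 ≤ x i) ∧ ∑ i, fr f (x i) = T + 1} := by
    ext x
    unfold LE'
    rw [Set.mem_union, Set.mem_ofPred_eq, Set.mem_ofPred_eq, Set.mem_ofPred_eq]
    constructor
    · rintro ⟨h1, h2⟩
      rcases Nat.lt_or_ge (∑ i, fr f (x i)) (T + 1) with h | h
      · exact Or.inl ⟨h1, by omega⟩
      · exact Or.inr ⟨h1, by omega⟩
    · rintro (⟨h1, h2⟩ | ⟨h1, h2⟩)
      · exact ⟨h1, by omega⟩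
      · exact ⟨h1, by omega⟩
  have h2 : Disjoint (LE' f s T) {x : Fin s → ℕ | (∀ i, 1 ≤ x i) ∧ ∑ i, fr f (x i) = T + 1} := by
    rw [Set.disjoint_left]
    rintro x ⟨_, hx⟩ ⟨_, hx'⟩
    omega
  have h3 : {x : Fin s → ℕ | (∀ i, 1 ≤ x i) ∧ ∑ i, fr f (x i) = T + 1}.Finite :=
    (fin_LE hk hlo (T + 1)).subset fun x hx => ⟨hx.1, hx.2.le⟩
  rw [h1, Set.ncard_union_eq h2 (fin_LE hk hlo T) h3]
  rfl

lemma window {k s : ℕ} (hk : 2 ≤ k) {f : ℝ → ℝ} (hlo : ∀ n : ℕ, n ^ k ≤ fr f n) (N : ℕ) :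
    ∀ W : ℕ, W ≤ N → ∑ h ∈ range W, (rep f s (N - h) : ℝ) =
      ((LE' f s N).ncard : ℝ) - ((LE' f s (N - W)).ncard : ℝ) := by
  intro W
  induction W with
  | zero => intro _; simp
  | succ W ih =>
    intro hW
    rw [Finset.sum_range_succ, ih (by omega)]
    have h1 := succ_LE (s := s) hk hlo (N - (W + 1))
    have h2 : N - (W + 1) + 1 = N - W := by omega
    rw [h2] at h1
    have h3 : ((LE' f s (N - W)).ncard : ℝ) = (LE' f s (N - (W + 1))).ncard + rep f s (N - W) := by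
      exact_mod_cast h1
    linarith

set_option maxHeartbeats 1000000 in
theorem t_ASY : S_VOL → S_ASY := by
  intro hV k s hk hs f c hc hlo hup ρ τ C' hρ hρ1 hτ hW
  have hk0 : (0 : ℝ) < k := by exact_mod_cast (by omega : 0 < k)
  have hs0 : (0 : ℝ) < s := by exact_mod_cast (by omega : 0 < s)
  obtain ⟨C, hC⟩ := hV k s hk (by omega) f c hc hlo hup
  set a : ℝ := (s : ℝ) / k with ha
  set b : ℝ := ((s : ℝ) - 1) / k with hb
  have ha1 : 1 < a := by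
    rw [ha, lt_div_iff₀ hk0, one_mul]
    exact_mod_cast (by omega : k < s)
  have hba : b = a - 1 / k := by rw [ha, hb]; ring
  have hb0 : 0 ≤ b := by
    rw [hb]
    have : (1 : ℝ) ≤ s := by exact_mod_cast (by omega : 1 ≤ s)
    exact div_nonneg (by linarith) hk0.le
  set γ : ℝ := Real.Gamma (1 + 1 / k) ^ s / Real.Gamma (1 + s / k) with hγ
  have hγ0 : 0 ≤ γ := by
    have h1 : 0 < Real.Gamma (1 + 1 / k) := Real.Gamma_pos_of_pos (by positivity)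
    have h2 : 0 < Real.Gamma (1 + s / k) := Real.Gamma_pos_of_pos (by positivity)
    positivity
  have hγa : Real.Gamma (1 + 1 / k) ^ s / Real.Gamma ((s : ℝ) / k) = γ * a := by
    have h2 : 0 < Real.Gamma ((s : ℝ) / k) := Real.Gamma_pos_of_pos (by positivity)
    rw [hγ, add_comm (1 : ℝ) ((s : ℝ) / k), Real.Gamma_add_one (by positivity), ← ha]
    rw [← ha] at h2
    field_simp
  rw [hγa]
  -- the error
  set e : ℕ → ℝ := fun N => C' * (N : ℝ) ^ (-(τ / (2 * k))) + 2 * |C| * (N : ℝ) ^ (-((1 - ρ) / k)) +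
    γ * a * (1 - (1 - 4 * (N : ℝ) ^ (-(ρ / k))) ^ (a - 1)) with he
  have hpow : ∀ x : ℝ, 0 < x → Tendsto (fun N : ℕ => (N : ℝ) ^ (-x)) atTop (𝓝 0) := fun x hx =>
    (tendsto_rpow_neg_atTop hx).comp tendsto_natCast_atTop_atTop
  have he0 : Tendsto e atTop (𝓝 0) := by
    have h1 := (hpow (τ / (2 * k)) (by positivity)).const_mul C'
    have h2 := (hpow ((1 - ρ) / k) (div_pos (by linarith) hk0)).const_mul (2 * |C|)
    have h3 : Tendsto (fun N : ℕ => (1 - 4 * (N : ℝ) ^ (-(ρ / k)))) atTop (𝓝 (1 - 4 * 0)) :=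
      tendsto_const_nhds.sub ((hpow (ρ / k) (by positivity)).const_mul 4)
    have h4 := h3.rpow_const (p := a - 1) (Or.inr (by linarith))
    have h5 := ((tendsto_const_nhds (x := (1 : ℝ))).sub h4).const_mul (γ * a)
    have h6 := (h1.add h2).add h5
    simpa [he] using h6
  rw [tendsto_iff_norm_sub_tendsto_zero]
  refine squeeze_zero' (Eventually.of_forall fun N => norm_nonneg _) ?_ he0
  have hsmall : ∀ᶠ N : ℕ in atTop, 4 * (N : ℝ) ^ (-(ρ / k)) < 1 := by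
    have h1 := (hpow (ρ / k) (by positivity)).const_mul 4
    rw [mul_zero] at h1
    exact h1.eventually (gt_mem_nhds one_pos)
  filter_upwards [hW, hsmall, eventually_ge_atTop 1] with N hN hN1 hN2
  obtain ⟨W, hW1, hW2, hW3⟩ := hN
  have hN0 : (0 : ℝ) < N := by exact_mod_cast hN2
  have hNone : (1 : ℝ) ≤ N := by exact_mod_cast hN2
  have hW0 : (0 : ℝ) < W := lt_of_lt_of_le (by positivity) hW1
  have hWN : (W : ℝ) ≤ 4 * (N : ℝ) ^ (-(ρ / k)) * N := by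
    refine hW2.trans (le_of_eq ?_)
    rw [mul_assoc, ← Real.rpow_add_one hN0.ne']
    congr 2
    ring
  have hWltN : (W : ℝ) < N := by nlinarith
  have hWltN' : W < N := by exact_mod_cast hWltN
  have hsub : ((N - W : ℕ) : ℝ) = (N : ℝ) - W := Nat.cast_sub hWltN'.le
  rw [window hk hlo N W hWltN'.le] at hW3
  -- the volumes
  have hV1 := hC N hN2
  have hV2 := hC (N - W) (by omega)
  change |((LE' f s N).ncard : ℝ) - γ * (N : ℝ) ^ a| ≤ C * (N : ℝ) ^ b at hV1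
  change |((LE' f s (N - W)).ncard : ℝ) - γ * ((N - W : ℕ) : ℝ) ^ a| ≤ C * ((N - W : ℕ) : ℝ) ^ b at hV2
  have hV1' : |((LE' f s N).ncard : ℝ) - γ * (N : ℝ) ^ a| ≤ |C| * (N : ℝ) ^ b :=
    hV1.trans (mul_le_mul_of_nonneg_right (le_abs_self _) (by positivity))
  have hV2' : |((LE' f s (N - W)).ncard : ℝ) - γ * ((N : ℝ) - W) ^ a| ≤ |C| * (N : ℝ) ^ b := by
    rw [hsub] at hV2
    have h0 : (0 : ℝ) ≤ (N : ℝ) - W := by linarith
    calc _ ≤ C * ((N : ℝ) - W) ^ b := hV2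
      _ ≤ |C| * ((N : ℝ) - W) ^ b := mul_le_mul_of_nonneg_right (le_abs_self _) (by positivity)
      _ ≤ |C| * (N : ℝ) ^ b := by
        refine mul_le_mul_of_nonneg_left (Real.rpow_le_rpow h0 (by linarith) hb0) (abs_nonneg _)
  -- mean value theorem
  obtain ⟨ξ, hξ, hξe⟩ : ∃ ξ ∈ Set.Ioo ((N : ℝ) - W) N,
      a * ξ ^ (a - 1) = ((N : ℝ) ^ a - ((N : ℝ) - W) ^ a) / (N - ((N : ℝ) - W)) := by
    refine exists_hasDerivAt_eq_slope (fun x : ℝ => x ^ a) (fun x => a * x ^ (a - 1)) (by linarith)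
      (ContinuousOn.rpow_const continuousOn_id fun x _ => Or.inr (by linarith)) ?_
    intro x hx
    exact Real.hasDerivAt_rpow_const (Or.inr ha1.le)
  have hden : (N : ℝ) - ((N : ℝ) - W) = W := by ring
  rw [hden] at hξe
  have hξ0 : 0 < ξ := by linarith [hξ.1]
  -- comparison
  have hav : |1 / (W : ℝ) * (((LE' f s N).ncard : ℝ) - ((LE' f s (N - W)).ncard : ℝ)) -
      γ * (a * ξ ^ (a - 1))| ≤ 2 * |C| * (N : ℝ) ^ b / W := by
    have h1 : 1 / (W : ℝ) * (((LE' f s N).ncard : ℝ) - ((LE' f s (N - W)).ncard : ℝ)) -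
      γ * (a * ξ ^ (a - 1)) = ((((LE' f s N).ncard : ℝ) - γ * (N : ℝ) ^ a) -
        (((LE' f s (N - W)).ncard : ℝ) - γ * ((N : ℝ) - W) ^ a)) / W := by
      rw [hξe]
      field_simp
      ring
    rw [h1, abs_div, abs_of_pos hW0]
    refine div_le_div_of_nonneg_right ?_ hW0.le
    refine (abs_sub _ _).trans ?_
    linarith
  have herr : 2 * |C| * (N : ℝ) ^ b / W ≤ 2 * |C| * (N : ℝ) ^ (-((1 - ρ) / k)) * (N : ℝ) ^ (a - 1) := by
    rw [div_le_iff₀ hW0]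
    have h1 : (N : ℝ) ^ b = (N : ℝ) ^ (-((1 - ρ) / k)) * (N : ℝ) ^ (a - 1) * (N : ℝ) ^ (1 - ρ / k) := by
      rw [← Real.rpow_add hN0, ← Real.rpow_add hN0]
      congr 1
      rw [hba]
      ring
    rw [h1]
    have h2 : 0 ≤ 2 * |C| * ((N : ℝ) ^ (-((1 - ρ) / k)) * (N : ℝ) ^ (a - 1)) := by positivity
    calc 2 * |C| * ((N : ℝ) ^ (-((1 - ρ) / k)) * (N : ℝ) ^ (a - 1) * (N : ℝ) ^ (1 - ρ / k))
        = 2 * |C| * ((N : ℝ) ^ (-((1 - ρ) / k)) * (N : ℝ) ^ (a - 1)) * (N : ℝ) ^ (1 - ρ / k) := by ring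
      _ ≤ 2 * |C| * ((N : ℝ) ^ (-((1 - ρ) / k)) * (N : ℝ) ^ (a - 1)) * W :=
          mul_le_mul_of_nonneg_left hW1 h2
      _ = _ := by ring
  have hmain : |γ * (a * ξ ^ (a - 1)) - γ * a * (N : ℝ) ^ (a - 1)| ≤
      γ * a * (1 - (1 - 4 * (N : ℝ) ^ (-(ρ / k))) ^ (a - 1)) * (N : ℝ) ^ (a - 1) := by
    have h1 : ξ ^ (a - 1) ≤ (N : ℝ) ^ (a - 1) := Real.rpow_le_rpow hξ0.le hξ.2.le (by linarith)
    have h2 : (1 - 4 * (N : ℝ) ^ (-(ρ / k))) ^ (a - 1) * (N : ℝ) ^ (a - 1) ≤ ξ ^ (a - 1) := by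
      rw [← Real.mul_rpow (by linarith) hN0.le]
      refine Real.rpow_le_rpow (mul_nonneg (by linarith) hN0.le) ?_ (by linarith)
      have := hξ.1
      nlinarith
    have h3 : 0 ≤ γ * a := mul_nonneg hγ0 (by linarith)
    rw [abs_le]
    constructor
    · have h4 := mul_le_mul_of_nonneg_left h2 h3
      linarith
    · have h5 : (1 - 4 * (N : ℝ) ^ (-(ρ / k))) ^ (a - 1) ≤ 1 :=
        Real.rpow_le_one (by linarith) (by
          have : (0 : ℝ) ≤ (N : ℝ) ^ (-(ρ / k)) := by positivity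
          linarith) (by linarith)
      have h6 := mul_le_mul_of_nonneg_left h1 h3
      have h7 : 0 ≤ γ * a * (1 - (1 - 4 * (N : ℝ) ^ (-(ρ / k))) ^ (a - 1)) * (N : ℝ) ^ (a - 1) :=
        mul_nonneg (mul_nonneg h3 (by linarith)) (by positivity)
      linarith
  have hC'e : C' * (N : ℝ) ^ (a - 1 - τ / (2 * k)) = C' * (N : ℝ) ^ (-(τ / (2 * k))) * (N : ℝ) ^ (a - 1) := by
    rw [mul_assoc, ← Real.rpow_add hN0]
    congr 2
    ring
  have htot : |(rep f s N : ℝ) - γ * a * (N : ℝ) ^ (a - 1)| ≤ e N * (N : ℝ) ^ (a - 1) := by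
    have h1 := abs_sub_le (rep f s N : ℝ)
      (1 / (W : ℝ) * (((LE' f s N).ncard : ℝ) - ((LE' f s (N - W)).ncard : ℝ)))
      (γ * a * (N : ℝ) ^ (a - 1))
    have h2 := abs_sub_le (1 / (W : ℝ) * (((LE' f s N).ncard : ℝ) - ((LE' f s (N - W)).ncard : ℝ)))
      (γ * (a * ξ ^ (a - 1))) (γ * a * (N : ℝ) ^ (a - 1))
    have h3 : e N * (N : ℝ) ^ (a - 1) = C' * (N : ℝ) ^ (-(τ / (2 * k))) * (N : ℝ) ^ (a - 1) +
      2 * |C| * (N : ℝ) ^ (-((1 - ρ) / k)) * (N : ℝ) ^ (a - 1) +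
      γ * a * (1 - (1 - 4 * (N : ℝ) ^ (-(ρ / k))) ^ (a - 1)) * (N : ℝ) ^ (a - 1) := by
      rw [he]
      ring
    rw [h3, ← hC'e]
    linarith
  have hNa : 0 < (N : ℝ) ^ (a - 1) := by positivity
  rw [Real.norm_eq_abs]
  have h1 : (rep f s N : ℝ) / (N : ℝ) ^ (a - 1) - γ * a =
      ((rep f s N : ℝ) - γ * a * (N : ℝ) ^ (a - 1)) / (N : ℝ) ^ (a - 1) := by
    field_simp
  rw [h1, abs_div, abs_of_pos hNa, div_le_iff₀ hNa]
  exact htot

end Pool.Agent.J4H33.AF
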