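import Pool.Agent.J4H7.AF.Stm

set_option autoImplicit false

namespace Pool.Agent.J4H33.AF

open Finset MeasureTheory Filter Topology
open Pool.Agent.J4H7.AF
open Pool.Agent.J4H7.WS (fr)

/-- the shell `a < |t| ≤ b` -/
lemma vol_shell {a b : ℝ} (ha : 0 ≤ a) (hab : a ≤ b) :
    volume {t : ℝ | a < |t| ∧ |t| ≤ b} = ENNReal.ofReal (2 * (b - a)) := by
  have h1 : {t : ℝ | a < |t| ∧ |t| ≤ b} = Set.Icc (-b) b \ Set.Icc (-a) a := by
    ext t
    rw [Set.mem_sdiff, Set.mem_Icc, Set.mem_Icc, ← abs_le, ← abs_le, not_le]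
    exact and_comm
  rw [h1, measure_sdiff (Set.Icc_subset_Icc (by linarith) hab) measurableSet_Icc.nullMeasurableSet
    (by rw [Real.volume_Icc]; exact ENNReal.ofReal_ne_top), Real.volume_Icc, Real.volume_Icc,
    ← ENNReal.ofReal_sub _ (by linarith)]
  congr 1
  ring

lemma meas_shell (a b : ℝ) : MeasurableSet {t : ℝ | a < |t| ∧ |t| ≤ b} :=
  (measurableSet_lt measurable_const measurable_norm).inter
    (measurableSet_le measurable_norm measurable_const)

/-- a cube with all signs -/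
def QQ {s : ℕ} (c : ℝ) (x : Fin s → ℕ) : Set (Fin s → ℝ) :=
  Set.pi Set.univ fun i => {t : ℝ | (x i : ℝ) - 1 + c < |t| ∧ |t| ≤ x i + c}

lemma vol_QQ {s : ℕ} {c : ℝ} (hc : 0 ≤ c) {x : Fin s → ℕ} (hx : ∀ i, 1 ≤ x i) :
    volume (QQ c x) = ENNReal.ofReal (2 ^ s) := by
  unfold QQ
  rw [volume_pi_pi]
  have h1 : ∀ i : Fin s, volume {t : ℝ | (x i : ℝ) - 1 + c < |t| ∧ |t| ≤ x i + c} = ENNReal.ofReal 2 := by
    intro i
    have h2 : (1 : ℝ) ≤ x i := by exact_mod_cast hx i
    rw [vol_shell (by linarith) (by linarith)]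
    congr 1
    ring
  rw [Finset.prod_congr rfl fun i _ => h1 i, Finset.prod_const, Finset.card_univ, Fintype.card_fin,
    ENNReal.ofReal_pow (by norm_num)]

lemma meas_QQ {s : ℕ} (c : ℝ) (x : Fin s → ℕ) : MeasurableSet (QQ c x) :=
  MeasurableSet.univ_pi fun i => meas_shell _ _

lemma disj_QQ {s : ℕ} (c : ℝ) {x y : Fin s → ℕ} (h : x ≠ y) : Disjoint (QQ c x) (QQ c y) := by
  rw [Set.disjoint_left]
  intro z hz hz'
  apply h
  funext i
  have h1 := hz i trivial
  have h2 := hz' i trivial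
  have h3 : (x i : ℝ) < y i + 1 := by
    have := h1.1
    have := h2.2
    linarith
  have h4 : (y i : ℝ) < x i + 1 := by
    have := h2.1
    have := h1.2
    linarith
  have h5 : x i < y i + 1 := by exact_mod_cast h3
  have h6 : y i < x i + 1 := by exact_mod_cast h4
  omega

/-- the slab `|z_i| ≤ 1 + c`, `|z_j| ≤ R` -/
def EE {s : ℕ} (c R : ℝ) (i : Fin s) : Set (Fin s → ℝ) :=
  Set.pi Set.univ fun j => if j = i then Set.Icc (-(1 + c)) (1 + c) else Set.Icc (-R) R

lemma vol_EE {s : ℕ} {c R : ℝ} (hc : 0 ≤ c) (hR : 0 ≤ R) (i : Fin s) :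
    volume (EE c R i) = ENNReal.ofReal (2 ^ s * ((1 + c) * R ^ (s - 1))) := by
  unfold EE
  rw [volume_pi_pi, ← Finset.mul_prod_erase Finset.univ _ (Finset.mem_univ i), if_pos rfl,
    Real.volume_Icc]
  have h1 : ∀ j ∈ Finset.univ.erase i,
      volume (if j = i then Set.Icc (-(1 + c)) (1 + c) else Set.Icc (-R) R) = ENNReal.ofReal (2 * R) := by
    intro j hj
    rw [if_neg (Finset.ne_of_mem_erase hj), Real.volume_Icc]
    congr 1
    ring
  rw [Finset.prod_congr rfl h1, Finset.prod_const, Finset.card_erase_of_mem (Finset.mem_univ i),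
    Finset.card_univ, Fintype.card_fin, ← ENNReal.ofReal_pow (by positivity),
    ← ENNReal.ofReal_mul (by linarith)]
  congr 1
  have hs : s = (s - 1) + 1 := by have := i.2; omega
  have h2 : (2 : ℝ) ^ s = 2 ^ (s - 1) * 2 := by
    rw [← pow_succ, ← hs]
  rw [h2, mul_pow]
  ring

theorem t_VOL : S_VOL := by
  intro k s hk hs f c hc hlo hup
  refine ⟨s * (1 + c), fun T hT => ?_⟩
  have hk0 : (0 : ℝ) < k := by exact_mod_cast (by omega : 0 < k)
  have hk1 : (1 : ℝ) ≤ k := by exact_mod_cast (by omega : 1 ≤ k)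
  have hT0 : (0 : ℝ) < T := by exact_mod_cast hT
  have : Nonempty (Fin s) := ⟨⟨0, by omega⟩⟩
  set R : ℝ := (T : ℝ) ^ (1 / (k : ℝ)) with hR
  have hR0 : 0 ≤ R := by positivity
  have hRs : R ^ s = (T : ℝ) ^ ((s : ℝ) / k) := by
    rw [hR, ← Real.rpow_natCast, ← Real.rpow_mul hT0.le]
    congr 1
    ring
  have hRs1 : R ^ (s - 1) = (T : ℝ) ^ (((s : ℝ) - 1) / k) := by
    rw [hR, ← Real.rpow_natCast, ← Real.rpow_mul hT0.le]
    congr 1
    rw [Nat.cast_sub hs]
    push_cast
    ring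
  set B : Set (Fin s → ℝ) := {x | (∑ i, |x i| ^ (k : ℝ)) ^ (1 / (k : ℝ)) ≤ R} with hB
  have hBmem : ∀ z : Fin s → ℝ, z ∈ B ↔ ∑ i, |z i| ^ k ≤ T := by
    intro z
    have h1 : ∑ i, |z i| ^ (k : ℝ) = ∑ i, |z i| ^ k :=
      Finset.sum_congr rfl fun i _ => Real.rpow_natCast _ _
    rw [hB, Set.mem_ofPred_eq, hR, h1, Real.rpow_le_rpow_iff (Finset.sum_nonneg fun i _ => by positivity)
      hT0.le (by positivity)]
  have hvol : volume B = ENNReal.ofReal (2 ^ s * (Real.Gamma (1 + 1 / k) ^ s /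
      Real.Gamma (1 + s / k) * R ^ s)) := by
    rw [hB, volume_sum_rpow_le (Fin s) hk1 R, Fintype.card_fin, ← ENNReal.ofReal_pow hR0,
      ← ENNReal.ofReal_mul (by positivity)]
    congr 1
    rw [mul_pow, add_comm (1 / (k : ℝ)) 1, add_comm ((s : ℝ) / k) 1]
    ring
  -- the set
  set A : Finset (Fin s → ℕ) :=
    (Fintype.piFinset fun _ => Finset.Icc 1 T).filter fun x => ∑ i, fr f (x i) ≤ T with hA
  have hAmem : ∀ x : Fin s → ℕ, x ∈ A ↔ (∀ i, 1 ≤ x i) ∧ ∑ i, fr f (x i) ≤ T := by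
    intro x
    rw [hA, Finset.mem_filter, Fintype.mem_piFinset]
    refine ⟨fun h => ⟨fun i => (Finset.mem_Icc.1 (h.1 i)).1, h.2⟩, fun h => ⟨fun i => ?_, h.2⟩⟩
    refine Finset.mem_Icc.2 ⟨h.1 i, ?_⟩
    calc x i ≤ x i ^ k := Nat.le_self_pow (by omega) _
      _ ≤ fr f (x i) := hlo _
      _ ≤ ∑ i, fr f (x i) := Finset.single_le_sum (f := fun i => fr f (x i)) (fun _ _ => Nat.zero_le _) (Finset.mem_univ i)
      _ ≤ T := h.2
  have hset : {x : Fin s → ℕ | (∀ i, 1 ≤ x i) ∧ ∑ i, fr f (x i) ≤ T} = (A : Set (Fin s → ℕ)) := by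
    ext x
    rw [Finset.mem_coe, hAmem]
    rfl
  rw [hset, Set.ncard_coe_finset]
  -- upper bound
  have hupper : (A.card : ℝ) ≤ Real.Gamma (1 + 1 / k) ^ s / Real.Gamma (1 + s / k) * R ^ s := by
    have h1 : volume (⋃ x ∈ A, QQ 0 x) = ∑ x ∈ A, volume (QQ 0 x) :=
      measure_biUnion_finset (fun x _ y _ hxy => disj_QQ 0 hxy) fun x _ => meas_QQ 0 x
    have h2 : ∑ x ∈ A, volume (QQ 0 x) = ENNReal.ofReal (A.card * 2 ^ s) := by
      rw [Finset.sum_congr rfl fun x hx => vol_QQ le_rfl ((hAmem x).1 hx).1, Finset.sum_const,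
        nsmul_eq_mul, ENNReal.ofReal_mul (by positivity), ENNReal.ofReal_natCast]
    have h3 : (⋃ x ∈ A, QQ 0 x) ⊆ B := by
      intro z hz
      rw [Set.mem_iUnion₂] at hz
      obtain ⟨x, hx, hz⟩ := hz
      rw [hBmem]
      calc ∑ i, |z i| ^ k ≤ ∑ i, ((fr f (x i) : ℕ) : ℝ) := by
            refine Finset.sum_le_sum fun i _ => ?_
            have h4 := (hz i trivial).2
            have h5 : |z i| ≤ x i := by
              have : |z i| ≤ x i + 0 := h4
              linarith
            calc |z i| ^ k ≤ (x i : ℝ) ^ k := pow_le_pow_left₀ (abs_nonneg _) h5 k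
              _ ≤ _ := by exact_mod_cast hlo (x i)
        _ ≤ T := by exact_mod_cast ((hAmem x).1 hx).2
    have h4 := measure_mono (μ := volume) h3
    rw [h1, h2, hvol, ENNReal.ofReal_le_ofReal_iff (by positivity)] at h4
    have h5 : (0 : ℝ) < 2 ^ s := by positivity
    have h6 : (2 : ℝ) ^ s * (A.card : ℝ) ≤ 2 ^ s * (Real.Gamma (1 + 1 / k) ^ s /
      Real.Gamma (1 + s / k) * R ^ s) := by linarith
    exact le_of_mul_le_mul_left h6 h5
  -- lower bound
  have hlower : Real.Gamma (1 + 1 / k) ^ s / Real.Gamma (1 + s / k) * R ^ s ≤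
      A.card + s * ((1 + c) * R ^ (s - 1)) := by
    have h3 : B ⊆ (⋃ x ∈ A, QQ (1 + c) x) ∪ ⋃ i ∈ (Finset.univ : Finset (Fin s)), EE c R i := by
      intro z hz
      by_cases hcase : ∀ i, 1 + c < |z i|
      · left
        rw [Set.mem_iUnion₂]
        set x : Fin s → ℕ := fun i => ⌈|z i| - c⌉₊ - 1 with hx
        have hx1 : ∀ i, (x i : ℝ) + c < |z i| ∧ |z i| ≤ x i + 1 + c ∧ 1 ≤ x i := by
          intro i
          have h4 : (1 : ℝ) < |z i| - c := by linarith [hcase i]
          have h5 : 1 < ⌈|z i| - c⌉₊ := by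
            rw [Nat.lt_ceil]
            exact_mod_cast h4
          have h6 : ((x i : ℕ) : ℝ) = (⌈|z i| - c⌉₊ : ℝ) - 1 := by
            rw [hx]
            push_cast [Nat.cast_sub h5.le]
            ring
          have h7 := Nat.ceil_lt_add_one (a := |z i| - c) (by linarith)
          have h8 := Nat.le_ceil (|z i| - c)
          refine ⟨by linarith, by linarith, ?_⟩
          show 1 ≤ ⌈|z i| - c⌉₊ - 1
          omega
        refine ⟨x, (hAmem x).2 ⟨fun i => (hx1 i).2.2, ?_⟩, ?_⟩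
        · have h4 : ((∑ i, fr f (x i) : ℕ) : ℝ) ≤ T := by
            push_cast
            refine le_trans (Finset.sum_le_sum fun i _ => ?_) ((hBmem z).1 hz)
            refine (hup (x i) (hx1 i).2.2).trans ?_
            exact pow_le_pow_left₀ (by positivity) (hx1 i).1.le k
          exact_mod_cast h4
        · intro i _
          have h4 := hx1 i
          show (x i : ℝ) - 1 + (1 + c) < |z i| ∧ |z i| ≤ x i + (1 + c)
          exact ⟨by linarith, by linarith⟩
      · right
        push Not at hcase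
        obtain ⟨i, hi⟩ := hcase
        rw [Set.mem_iUnion₂]
        refine ⟨i, Finset.mem_univ i, fun j _ => ?_⟩
        show z j ∈ if j = i then Set.Icc (-(1 + c)) (1 + c) else Set.Icc (-R) R
        by_cases hj : j = i
        · rw [if_pos hj, hj, Set.mem_Icc, ← abs_le]
          exact hi
        · rw [if_neg hj, Set.mem_Icc, ← abs_le]
          have h4 : |z j| ^ k ≤ T :=
            (Finset.single_le_sum (f := fun i => |z i| ^ k) (fun _ _ => by positivity)
              (Finset.mem_univ j)).trans ((hBmem z).1 hz)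
          have h5 : |z j| = (|z j| ^ k) ^ (1 / (k : ℝ)) := by
            rw [← Real.rpow_natCast, ← Real.rpow_mul (abs_nonneg _), mul_one_div_cancel hk0.ne',
              Real.rpow_one]
          rw [h5]
          exact Real.rpow_le_rpow (by positivity) h4 (by positivity)
    have h4 := (measure_mono (μ := volume) h3).trans (measure_union_le _ _)
    have h5 : volume (⋃ x ∈ A, QQ (1 + c) x) ≤ ENNReal.ofReal (A.card * 2 ^ s) := by
      refine (measure_biUnion_finset_le _ _).trans (le_of_eq ?_)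
      rw [Finset.sum_congr rfl fun x hx => vol_QQ (by linarith) ((hAmem x).1 hx).1,
        Finset.sum_const, nsmul_eq_mul, ENNReal.ofReal_mul (by positivity), ENNReal.ofReal_natCast]
    have h6 : volume (⋃ i ∈ (Finset.univ : Finset (Fin s)), EE c R i) ≤
        ENNReal.ofReal (s * (2 ^ s * ((1 + c) * R ^ (s - 1)))) := by
      refine (measure_biUnion_finset_le _ _).trans (le_of_eq ?_)
      rw [Finset.sum_congr rfl fun i _ => vol_EE hc hR0 i, Finset.sum_const, nsmul_eq_mul,
        Finset.card_univ, Fintype.card_fin, ENNReal.ofReal_mul (p := (s : ℝ)) (by positivity),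
        ENNReal.ofReal_natCast]
    have h7 := h4.trans (add_le_add h5 h6)
    rw [hvol, ← ENNReal.ofReal_add (by positivity) (by positivity),
      ENNReal.ofReal_le_ofReal_iff (by positivity)] at h7
    have h8 : (0 : ℝ) < 2 ^ s := by positivity
    have h9 : (2 : ℝ) ^ s * (Real.Gamma (1 + 1 / k) ^ s / Real.Gamma (1 + s / k) * R ^ s) ≤
        2 ^ s * (A.card + s * ((1 + c) * R ^ (s - 1))) := by linarith
    exact le_of_mul_le_mul_left h9 h8
  rw [← hRs, ← hRs1, abs_le]
  constructor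
  · linarith
  · have : (0 : ℝ) ≤ s * (1 + c) * R ^ (s - 1) := by positivity
    linarith

end Pool.Agent.J4H33.AF
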